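import Pool.Agent.W823.QT.Stm

/-!
# MP_26aa9e_pr, project QT: kernel bound for the difference of two walks
-/

set_option autoImplicit false

namespace Pool.Agent.W696.QTKERG

open MeasureTheory ProbabilityTheory Filter Topology Pool.Agent.W845.Traps Pool.Agent.W823.QT
open scoped ENNReal NNReal

lemma num (x y : ℝ) (hy : 0 < y) (hxy : y ≤ 2 * x) :
    x ^ (-(5 / 2) : ℝ) ≤ 8 * y ^ (-(5 / 2) : ℝ) := by
  have h1 : x ^ (-(5 / 2) : ℝ) ≤ (y / 2) ^ (-(5 / 2) : ℝ) :=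
    Real.rpow_le_rpow_of_nonpos (by linarith) (by linarith) (by norm_num)
  have h2 : (1 / 8 : ℝ) ≤ 2 ^ (-(5 / 2) : ℝ) := by
    have h3 : (2 : ℝ) ^ (-3 : ℝ) ≤ 2 ^ (-(5 / 2) : ℝ) :=
      Real.rpow_le_rpow_of_exponent_le (by norm_num) (by norm_num)
    have h4 : (2 : ℝ) ^ (-3 : ℝ) = 1 / 8 := by
      rw [Real.rpow_neg (by norm_num)]
      norm_num
    linarith
  have h5 : (0 : ℝ) < y ^ (-(5 / 2) : ℝ) := Real.rpow_pos_of_pos hy _
  rw [Real.div_rpow hy.le (by norm_num)] at h1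
  refine h1.trans ?_
  rw [div_le_iff₀ (by positivity)]
  nlinarith

lemma meas_pos {d : ℕ} (k : ℕ) : Measurable (fun a : ℕ → Fin d → ℤ => pos a k) := by
  unfold pos
  exact Finset.measurable_fun_sum _ (fun i _ => measurable_pi_apply i)

lemma pk_eq (h2 : STEP_T) (d : ℕ) (ρ h : ℝ≥0) (k : ℕ) (x : Fin d → ℤ) :
    pk (stepLaw d ρ h) k x = stepLaw d ρ (k * h) {x} := by
  rw [← (h2 d ρ h).2.2.2 k, Measure.map_apply (meas_pos k) (measurableSet_singleton x)]
  rfl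

theorem main (h1 : KERB_T) (h2 : STEP_T) (h3 : MEAS_T) : KERG_T := by
  intro d hd κ ρ hκ hρ
  obtain ⟨C1, hC1, hk1⟩ := h1 d hd κ hκ
  obtain ⟨C2, hC2, hk2⟩ := h1 d hd ρ hρ
  refine ⟨8 * max C1 C2, by positivity, ?_⟩
  intro h k m x
  haveI : IsProbabilityMeasure (stepLaw d κ h) := (h2 d κ h).1
  haveI : IsProbabilityMeasure (iid (stepLaw d κ h)) := by unfold iid; infer_instance
  have e0 : ∀ a : ℕ → Fin d → ℤ, pk (stepLaw d ρ h) k (x + pos a m)
      = stepLaw d ρ (k * h) {x + pos a m} := fun a => pk_eq h2 d ρ h k _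
  simp only [e0]
  have hh : (0 : ℝ) ≤ h := h.2
  have hk0 : (0 : ℝ) ≤ (k : ℝ) := Nat.cast_nonneg k
  have hm0 : (0 : ℝ) ≤ (m : ℝ) := Nat.cast_nonneg m
  have hpos : (0 : ℝ) < 1 + ((k + m : ℕ) : ℝ) * h := by
    have : (0 : ℝ) ≤ ((k + m : ℕ) : ℝ) * h := mul_nonneg (Nat.cast_nonneg _) hh
    linarith
  have hp := Real.rpow_pos_of_pos hpos (-(5 / 2) : ℝ)
  rcases le_total m k with hmk | hmk
  · calc ∫⁻ a, stepLaw d ρ (k * h) {x + pos a m} ∂(iid (stepLaw d κ h))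
        ≤ ∫⁻ _a, ENNReal.ofReal (8 * max C1 C2 * (1 + ((k + m : ℕ) : ℝ) * h) ^ (-(5 / 2) : ℝ))
            ∂(iid (stepLaw d κ h)) := by
          apply lintegral_mono
          intro a
          refine (hk2 _ _).trans (ENNReal.ofReal_le_ofReal ?_)
          have hn := num (1 + ((k * h : ℝ≥0) : ℝ)) (1 + ((k + m : ℕ) : ℝ) * h) hpos (by
            push_cast
            have : (m : ℝ) * h ≤ k * h := mul_le_mul_of_nonneg_right (by exact_mod_cast hmk) hh
            nlinarith)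
          calc C2 * (1 + ((k * h : ℝ≥0) : ℝ)) ^ (-(5 / 2) : ℝ)
              ≤ C2 * (8 * (1 + ((k + m : ℕ) : ℝ) * h) ^ (-(5 / 2) : ℝ)) :=
                mul_le_mul_of_nonneg_left hn hC2.le
            _ ≤ max C1 C2 * (8 * (1 + ((k + m : ℕ) : ℝ) * h) ^ (-(5 / 2) : ℝ)) :=
                mul_le_mul_of_nonneg_right (le_max_right _ _) (by positivity)
            _ = 8 * max C1 C2 * (1 + ((k + m : ℕ) : ℝ) * h) ^ (-(5 / 2) : ℝ) := by ring
      _ = ENNReal.ofReal (8 * max C1 C2 * (1 + ((k + m : ℕ) : ℝ) * h) ^ (-(5 / 2) : ℝ)) := by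
          simp
  · have e1 : ∫⁻ a, stepLaw d ρ (k * h) {x + pos a m} ∂(iid (stepLaw d κ h)) =
        ∫⁻ y, stepLaw d ρ (k * h) {x + y} ∂(stepLaw d κ (m * h)) := by
      rw [← (h2 d κ h).2.2.2 m]
      rw [lintegral_map (measurable_of_countable _) (meas_pos m)]
    rw [e1, lintegral_countable']
    have hS : ∑' y : Fin d → ℤ, stepLaw d ρ (k * h) {x + y} = 1 := by
      haveI : IsProbabilityMeasure (stepLaw d ρ (k * h)) := (h2 d ρ (k * h)).1
      have e2 : ∑' y : Fin d → ℤ, stepLaw d ρ (k * h) {x + y} =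
          ∑' y : Fin d → ℤ, stepLaw d ρ (k * h) {y} :=
        (Equiv.addLeft x).tsum_eq (fun y => stepLaw d ρ (k * h) {y})
      rw [e2]
      have e3 := lintegral_countable' (μ := stepLaw d ρ (k * h)) (fun _ => (1 : ℝ≥0∞))
      simp only [one_mul, lintegral_one, measure_univ] at e3
      exact e3.symm
    calc ∑' y : Fin d → ℤ, stepLaw d ρ (k * h) {x + y} * stepLaw d κ (m * h) {y}
        ≤ ∑' y : Fin d → ℤ, stepLaw d ρ (k * h) {x + y} *
            ENNReal.ofReal (8 * max C1 C2 * (1 + ((k + m : ℕ) : ℝ) * h) ^ (-(5 / 2) : ℝ)) := by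
          apply ENNReal.tsum_le_tsum
          intro y
          gcongr
          refine (hk1 _ _).trans (ENNReal.ofReal_le_ofReal ?_)
          have hn := num (1 + ((m * h : ℝ≥0) : ℝ)) (1 + ((k + m : ℕ) : ℝ) * h) hpos (by
            push_cast
            have : (k : ℝ) * h ≤ m * h := mul_le_mul_of_nonneg_right (by exact_mod_cast hmk) hh
            nlinarith)
          calc C1 * (1 + ((m * h : ℝ≥0) : ℝ)) ^ (-(5 / 2) : ℝ)
              ≤ C1 * (8 * (1 + ((k + m : ℕ) : ℝ) * h) ^ (-(5 / 2) : ℝ)) :=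
                mul_le_mul_of_nonneg_left hn hC1.le
            _ ≤ max C1 C2 * (8 * (1 + ((k + m : ℕ) : ℝ) * h) ^ (-(5 / 2) : ℝ)) :=
                mul_le_mul_of_nonneg_right (le_max_left _ _) (by positivity)
            _ = 8 * max C1 C2 * (1 + ((k + m : ℕ) : ℝ) * h) ^ (-(5 / 2) : ℝ) := by ring
      _ = ENNReal.ofReal (8 * max C1 C2 * (1 + ((k + m : ℕ) : ℝ) * h) ^ (-(5 / 2) : ℝ)) := by
          rw [ENNReal.tsum_mul_right, hS, one_mul]

end Pool.Agent.W696.QTKERG
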