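import Pool.Agent.W983.PL.Stm

/-!
# Project PC: contraction
-/
set_option autoImplicit false
open Set Topology

namespace Pool.Agent.W696.PCCon

open Pool.Agent.W983.PL

/-- numerical facts for one index -/
structure Num (b c : ℝ) : Prop where
  h1 : 1 / 16 ≤ b
  h2 : b < c
  h3 : c < 1 / 8
  h4 : c - b ≤ 1 / 64

theorem Num.sig {b c : ℝ} (h : Num b c) :
    0 ≤ (c - b) / (2 * b) ∧ (c - b) / (2 * b) ≤ 1 / 8 ∧ 2 * b * ((c - b) / (2 * b)) = c - b := by
  have := h.h1; have := h.h2; have := h.h3; have := h.h4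
  refine ⟨div_nonneg (by linarith) (by linarith), ?_, ?_⟩
  · rw [div_le_iff₀ (by linarith)]
    linarith
  · field_simp

theorem Num.tau {b c : ℝ} (h : Num b c) :
    0 ≤ (c - b) / (1 - 2 * c) ∧ (c - b) / (1 - 2 * c) ≤ 1 / 8 ∧
      (1 - 2 * c) * ((c - b) / (1 - 2 * c)) = c - b := by
  have := h.h1; have := h.h2; have := h.h3; have := h.h4
  have h5 : 0 < 1 - 2 * c := by linarith
  refine ⟨div_nonneg (by linarith) (by linarith), ?_, ?_⟩
  · rw [div_le_iff₀ h5]
    linarith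
  · field_simp

/-- contraction on one side -/
theorem same {σ s t x y : ℝ} (h0 : 0 ≤ σ) (h1 : σ ≤ 1 / 8) (hx : x - y = (s - t) * σ) :
    |x - y| ≤ 1 / 2 * |s - t| := by
  rw [hx, abs_mul, abs_of_nonneg h0]
  have := abs_nonneg (s - t)
  nlinarith

section

variable {F : ℕ → ℝ ≃o ℝ} {g : ℕ → HC} (hg : IsGen F g) (k : ℕ) (hn : Num (bb k) (cc k))

include hg hn

theorem coL {z : Circle} (hz : z ∈ LL k) : ∃ s, -bb k ≤ s ∧ s ≤ bb k ∧
    ((s = co z ∧ co z ≤ bb k) ∨ (s = co z - 1 ∧ 1 - bb k ≤ co z)) ∧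
    co (g k z) = 1 / 2 - cc k + (s + bb k) * ((cc k - bb k) / (2 * bb k)) := by
  obtain ⟨h1, h2, h3, h4⟩ := hn
  obtain ⟨s0, s1, s2⟩ := (⟨h1, h2, h3, h4⟩ : Num (bb k) (cc k)).sig
  have c0 := co_nonneg z
  have c1 := co_lt_one z
  have key : ∀ s, -bb k ≤ s → s ≤ bb k → E s = z →
      co (g k z) = 1 / 2 - cc k + (s + bb k) * ((cc k - bb k) / (2 * bb k)) := by
    intro s hs1 hs2 hs
    rw [← hs, hg.gE, hg.lift.L k s hs1 hs2]
    have e1 : 0 ≤ (s + bb k) * ((cc k - bb k) / (2 * bb k)) := mul_nonneg (by linarith) s0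
    have e2 : (s + bb k) * ((cc k - bb k) / (2 * bb k)) ≤ 2 * bb k * ((cc k - bb k) / (2 * bb k)) :=
      mul_le_mul_of_nonneg_right (by linarith) s0
    exact co_E_of (by linarith) (by linarith)
  rcases hz with h | h
  · exact ⟨co z, by linarith, h, Or.inl ⟨rfl, h⟩, key _ (by linarith) h (E_co z)⟩
  · refine ⟨co z - 1, by linarith, by linarith, Or.inr ⟨rfl, h⟩, key _ (by linarith) (by linarith) ?_⟩
    have := E_add_one (co z - 1)
    rw [sub_add_cancel, E_co] at this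
    exact this.symm

theorem coT {z : Circle} (hz : z ∈ RT k) :
    co (g k z) = 1 / 2 + bb k + (co z - cc k) * ((cc k - bb k) / (1 - 2 * cc k)) := by
  obtain ⟨h1, h2, h3, h4⟩ := hn
  obtain ⟨s0, s1, s2⟩ := (⟨h1, h2, h3, h4⟩ : Num (bb k) (cc k)).tau
  obtain ⟨hz1, hz2⟩ := hz
  have e0 : g k z = E (F k (co z)) := by rw [← hg.gE, E_co]
  rw [e0, hg.lift.T k (co z) hz1 hz2]
  have e1 : 0 ≤ (co z - cc k) * ((cc k - bb k) / (1 - 2 * cc k)) := mul_nonneg (by linarith) s0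
  have e2 : (co z - cc k) * ((cc k - bb k) / (1 - 2 * cc k)) ≤
      (1 - 2 * cc k) * ((cc k - bb k) / (1 - 2 * cc k)) :=
    mul_le_mul_of_nonneg_right (by linarith) s0
  exact co_E_of (by linarith) (by linarith)

theorem coI {z : Circle} (hz : z ∈ II k) :
    co ((g k)⁻¹ z) = bb k + (co z - (1 / 2 - bb k)) * ((cc k - bb k) / (2 * bb k)) := by
  obtain ⟨h1, h2, h3, h4⟩ := hn
  obtain ⟨s0, s1, s2⟩ := (⟨h1, h2, h3, h4⟩ : Num (bb k) (cc k)).sig
  obtain ⟨hz1, hz2⟩ := hz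
  set y : ℝ := bb k + (co z - (1 / 2 - bb k)) * ((cc k - bb k) / (2 * bb k)) with hy
  have e1 : 0 ≤ (co z - (1 / 2 - bb k)) * ((cc k - bb k) / (2 * bb k)) :=
    mul_nonneg (by linarith) s0
  have e2 : (co z - (1 / 2 - bb k)) * ((cc k - bb k) / (2 * bb k)) ≤
      2 * bb k * ((cc k - bb k) / (2 * bb k)) :=
    mul_le_mul_of_nonneg_right (by linarith) s0
  have hF : F k y = co z := by
    rw [hg.lift.Y k y (by linarith) (by linarith), hy]
    have : cc k - bb k ≠ 0 := by linarith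
    have : bb k ≠ 0 := by linarith
    field_simp
    ring
  have hgy : g k (E y) = z := by rw [hg.gE, hF, E_co]
  have : (g k)⁻¹ z = E y := by
    rw [← hgy]
    exact (g k).symm_apply_apply (E y)
  rw [this]
  exact co_E_of (by linarith) (by linarith)

theorem coO {z : Circle} (hz : z ∈ OO k) : ∃ s,
    ((s = co z + 1 ∧ co z ≤ 1 / 2 - cc k) ∨ (s = co z ∧ 1 / 2 + cc k ≤ co z)) ∧
    1 / 2 + cc k ≤ s ∧ s ≤ 3 / 2 - cc k ∧
    co ((g k)⁻¹ z) = 1 - cc k + (s - (1 / 2 + cc k)) * ((cc k - bb k) / (1 - 2 * cc k)) := by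
  obtain ⟨h1, h2, h3, h4⟩ := hn
  obtain ⟨s0, s1, s2⟩ := (⟨h1, h2, h3, h4⟩ : Num (bb k) (cc k)).tau
  have c0 := co_nonneg z
  have c1 := co_lt_one z
  have key : ∀ s, 1 / 2 + cc k ≤ s → s ≤ 3 / 2 - cc k → E s = z →
      co ((g k)⁻¹ z) = 1 - cc k + (s - (1 / 2 + cc k)) * ((cc k - bb k) / (1 - 2 * cc k)) := by
    intro s hs1 hs2 hs
    set y : ℝ := 1 - cc k + (s - (1 / 2 + cc k)) * ((cc k - bb k) / (1 - 2 * cc k)) with hy
    have e1 : 0 ≤ (s - (1 / 2 + cc k)) * ((cc k - bb k) / (1 - 2 * cc k)) :=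
      mul_nonneg (by linarith) s0
    have e2 : (s - (1 / 2 + cc k)) * ((cc k - bb k) / (1 - 2 * cc k)) ≤
        (1 - 2 * cc k) * ((cc k - bb k) / (1 - 2 * cc k)) :=
      mul_le_mul_of_nonneg_right (by linarith) s0
    have hF : F k y = s := by
      rw [hg.lift.R k y (by linarith) (by linarith), hy]
      have : cc k - bb k ≠ 0 := by linarith
      have : 1 - 2 * cc k ≠ 0 := by linarith
      field_simp
      ring
    have hgy : g k (E y) = z := by rw [hg.gE, hF, hs]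
    have : (g k)⁻¹ z = E y := by
      rw [← hgy]
      exact (g k).symm_apply_apply (E y)
    rw [this]
    exact co_E_of (by linarith) (by linarith)
  rcases hz with h | h
  · refine ⟨co z + 1, Or.inl ⟨rfl, h⟩, by linarith, by linarith,
      key _ (by linarith) (by linarith) ?_⟩
    rw [E_add_one, E_co]
  · exact ⟨co z, Or.inr ⟨rfl, h⟩, h, by linarith, key _ h (by linarith) (E_co z)⟩

end

theorem con (hBC : S_BC) : S_CON := by
  intro F g hg k z w
  obtain ⟨hB, -, -⟩ := hBC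
  obtain ⟨b1, b2, b3, b4, b5, b6⟩ := hB k
  have hn : Num (bb k) (cc k) := ⟨b1, b2, b5, b6⟩
  obtain ⟨s0, s1, s2⟩ := hn.sig
  obtain ⟨t0, t1, t2⟩ := hn.tau
  set b := bb k
  set c := cc k
  set σ := (c - b) / (2 * b)
  set τ := (c - b) / (1 - 2 * c)
  refine ⟨fun hz hw => ?_, fun hz hw => ?_, fun hz hw => ?_, fun hz hw => ?_⟩
  · obtain ⟨s, hs1, hs2, hs3, hs4⟩ := coL hg k hn hz
    obtain ⟨t, ht1, ht2, ht3, ht4⟩ := coL hg k hn hw
    have hd : co (g k z) - co (g k w) = (s - t) * σ := by rw [hs4, ht4]; ring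
    have hfar : 3 / 4 ≤ |co z - co w| → |co (g k z) - co (g k w)| ≤ 1 / 2 * |co z - co w| := by
      intro h
      rw [hd, abs_mul, abs_of_nonneg s0]
      have h1 : |s - t| ≤ 2 * b := abs_le.2 ⟨by linarith, by linarith⟩
      have h2 : |s - t| * σ ≤ 2 * b * σ := mul_le_mul_of_nonneg_right h1 s0
      have h3 : 2 * b * σ = c - b := s2
      linarith
    rcases hs3 with ⟨a1, a2⟩ | ⟨a1, a2⟩ <;> rcases ht3 with ⟨a3, a4⟩ | ⟨a3, a4⟩
    · rw [← a1, ← a3]
      exact same s0 s1 hd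
    · refine hfar ?_
      rw [abs_sub_comm]
      exact le_trans (by linarith) (le_abs_self _)
    · refine hfar ?_
      exact le_trans (by linarith) (le_abs_self _)
    · have : co z - co w = s - t := by rw [a1, a3]; ring
      rw [this]
      exact same s0 s1 hd
  · have e1 := coT hg k hn hz
    have e2 := coT hg k hn hw
    have hd : co (g k z) - co (g k w) = (co z - co w) * τ := by rw [e1, e2]; ring
    exact same t0 t1 hd
  · have e1 := coI hg k hn hz
    have e2 := coI hg k hn hw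
    have hd : co ((g k)⁻¹ z) - co ((g k)⁻¹ w) = (co z - co w) * σ := by rw [e1, e2]; ring
    exact same s0 s1 hd
  · obtain ⟨s, hs3, hs1, hs2, hs4⟩ := coO hg k hn hz
    obtain ⟨t, ht3, ht1, ht2, ht4⟩ := coO hg k hn hw
    have hd : co ((g k)⁻¹ z) - co ((g k)⁻¹ w) = (s - t) * τ := by rw [hs4, ht4]; ring
    have hfar : 1 / 8 ≤ |co z - co w| →
        |co ((g k)⁻¹ z) - co ((g k)⁻¹ w)| ≤ 1 / 2 * |co z - co w| := by
      intro h
      rw [hd, abs_mul, abs_of_nonneg t0]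
      have h1 : |s - t| ≤ 1 - 2 * c := abs_le.2 ⟨by linarith, by linarith⟩
      have h2 : |s - t| * τ ≤ (1 - 2 * c) * τ := mul_le_mul_of_nonneg_right h1 t0
      have h3 : (1 - 2 * c) * τ = c - b := t2
      linarith
    rcases hs3 with ⟨a1, a2⟩ | ⟨a1, a2⟩ <;> rcases ht3 with ⟨a3, a4⟩ | ⟨a3, a4⟩
    · have : co z - co w = s - t := by rw [a1, a3]; ring
      rw [this]
      exact same t0 t1 hd
    · refine hfar ?_
      rw [abs_sub_comm]
      exact le_trans (by linarith) (le_abs_self _)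
    · refine hfar ?_
      exact le_trans (by linarith) (le_abs_self _)
    · rw [← a1, ← a3]
      exact same t0 t1 hd

end Pool.Agent.W696.PCCon
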