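import Pool.Agent.W894.HT.MDefs

/-!
# Project HM: the sign of the path of a choice
-/

namespace Pool.Agent.W696.HMWpth

open Pool.Agent.W894.HT

/-- Passing all gadgets of a route gives the product `1`. -/
theorem route (g : Nm → Nm → ℤ) (k : ℕ) (b : Bool) (v : Nm) (R : List Nm) :
    ∀ (L : List Lb) (i0 : ℕ),
      (∀ p ∈ L.zipIdx i0, g (rv k b p.2) (yv k b p.2) = -1 ∧ g (yv k b p.2) (sh p.1) = -1 ∧
        g (sh p.1) (xv k b p.2) = 1 ∧ g (xv k b p.2) (rv k b (p.2 + 1)) = 1) →
      g (rv k b (i0 + L.length)) v = 1 →
      cw g (rv k b i0 :: ((L.zipIdx i0).flatMap (fun p =>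
        [yv k b p.2, sh p.1, xv k b p.2, rv k b (p.2 + 1)]) ++ v :: R)) = cw g (v :: R) := by
  intro L
  induction L with
  | nil =>
    intro i0 _ h2
    simp only [List.length_nil, Nat.add_zero] at h2
    simp [cw, h2]
  | cons a L ih =>
    intro i0 h1 h2
    have hh := h1 (a, i0) (by simp [List.zipIdx_cons])
    have ht := ih (i0 + 1) (fun p hp => h1 p (by
      rw [List.zipIdx_cons]; exact List.mem_cons_of_mem _ hp)) (by
      have : i0 + 1 + L.length = i0 + (a :: L).length := by simp; omega
      rw [this]; exact h2)
    simp only at hh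
    rw [List.zipIdx_cons, List.flatMap_cons]
    simp only [List.cons_append, List.nil_append, cw, hh.1, hh.2.1, hh.2.2.1, hh.2.2.2]
    rw [ht]
    ring

theorem pth_cons (k : ℕ) (S : Stg) (bs : List Bool) : ∃ R, pth k S bs = hub k :: R := by
  match S, bs with
  | [], bs => exact ⟨[], by simp [pth]⟩
  | (P, Q) :: S, [] => exact ⟨[], by simp [pth]⟩
  | (P, Q) :: S, b :: bs => exact ⟨_, rfl⟩

theorem main (h : S_GW) : S_WPTH := by
  intro S τ bs hlen _
  obtain ⟨hsymm, _, hedge, hgad⟩ := h S τ
  have key : ∀ (S' : Stg) (k : ℕ) (bs : List Bool), bs.length = S'.length →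
      (∀ p ∈ S'.zipIdx k, p ∈ S.zipIdx) →
      cw (gw (A := ℤ) (sE S τ)) (pth k S' bs) = sgb τ k bs := by
    intro S'
    induction S' with
    | nil =>
      intro k bs hb _
      have : bs = [] := by simpa using hb
      subst this
      simp [pth, cw, sgb]
    | cons PQ S' ih =>
      intro k bs hb hm
      obtain ⟨P, Q⟩ := PQ
      match bs, hb with
      | b :: bs, hb =>
        have hb' : bs.length = S'.length := by simpa using hb
        have ht := ih (k + 1) bs hb' (fun p hp => hm p (by
          rw [List.zipIdx_cons]; exact List.mem_cons_of_mem _ hp))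
        have hS : ((P, Q), k) ∈ S.zipIdx := hm _ (by simp [List.zipIdx_cons])
        obtain ⟨R, hR⟩ := pth_cons (k + 1) S' bs
        set L : List Lb := if b = true then Q else P with hL
        have hsub : ∀ t ∈ rS k b (if b = true then τ k else false) L, t ∈ sE S τ := by
          intro t ht'
          refine List.mem_flatMap.2 ⟨_, hS, ?_⟩
          cases b with
          | false => exact List.mem_append_left _ (by simpa [hL] using ht')
          | true => exact List.mem_append_right _ (by simpa [hL] using ht')
        have hg : ∀ p ∈ L.zipIdx, (k, b, p.2, p.1) ∈ gads S := by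
          intro p hp
          refine List.mem_flatMap.2 ⟨_, hS, ?_⟩
          cases b with
          | false =>
            refine List.mem_append_left _ (List.mem_map.2 ⟨p, by simpa [hL] using hp, rfl⟩)
          | true =>
            refine List.mem_append_right _ (List.mem_map.2 ⟨p, by simpa [hL] using hp, rfl⟩)
        have e1 := hedge (hub k, rv k b 0, (if b = true then τ k else false)) (hsub _ (by
          simp [rS]))
        have e2 := hedge (rv k b L.length, hub (k + 1), false) (hsub _ (by simp [rS]))
        simp only at e1 e2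
        have e3 : gw (A := ℤ) (sE S τ) (rv k b (0 + L.length)) (hub (k + 1)) = 1 := by
          rw [Nat.zero_add, e2]; simp
        have hr := route (gw (A := ℤ) (sE S τ)) k b (hub (k + 1)) R L 0 (fun p hp => by
          have := hgad _ (hg p hp)
          simp only at this
          exact ⟨this.2.2.2.2.1, this.1, by rw [hsymm]; exact this.2.2.1, this.2.2.2.2.2⟩) e3
        have hp : pth k ((P, Q) :: S') (b :: bs) = hub k :: (word k b L ++ pth (k + 1) S' bs) := rfl
        rw [hp, hR]
        have hw : hub k :: (word k b L ++ hub (k + 1) :: R) = hub k :: rv k b 0 ::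
            ((L.zipIdx 0).flatMap (fun p =>
              [yv k b p.2, sh p.1, xv k b p.2, rv k b (p.2 + 1)]) ++ hub (k + 1) :: R) := rfl
        rw [hw]
        show gw (A := ℤ) (sE S τ) (hub k) (rv k b 0) * _ = _
        rw [hr, e1, ← hR, ht, sgb]
        congr 1
        cases b <;> simp
  exact key S 0 bs hlen (fun p hp => hp)

end Pool.Agent.W696.HMWpth
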