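import Pool.Agent.W217.BE.Stm

set_option autoImplicit false

namespace Pool.Agent.W696.BELOC

open Pool.Agent.W217.BE

theorem lemA {B : Type} [CommRing B] [IsLocalRing B] (r : ℕ → ℕ)
    (d : ∀ i, (Fin (r (i + 1)) → B) →ₗ[B] (Fin (r i) → B))
    (hmin : ∀ i x j, d i x j ∈ IsLocalRing.maximalIdeal B) (i n : ℕ) (hn : n ≤ r i) :
    Cert (IsLocalRing.residue B) (fun i => Fin (r i) → B) d i n := by
  classical
  refine ⟨fun j => Pi.single (Fin.castLE hn j) 1,
    fun j => (IsLocalRing.residue B).toAddMonoidHom.comp
      (Pi.evalAddMonoidHom (fun _ : Fin (r i) => B) (Fin.castLE hn j)), ?_, ?_, ?_, ?_⟩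
  · intro j
    cases i with
    | zero => trivial
    | succ k =>
      intro L hL
      have h1 : d k (Pi.single (Fin.castLE hn j) 1) =
          ∑ t : Fin (r k), (d k (Pi.single (Fin.castLE hn j) 1) t) •
            (Pi.single t 1 : Fin (r k) → B) := by
        funext s
        simp [Finset.sum_apply, Pi.single_apply]
      rw [h1, map_sum]
      refine Finset.sum_eq_zero fun t _ => ?_
      rw [hL, (IsLocalRing.residue_eq_zero_iff _).mpr (hmin k _ t), zero_mul]
  · intro j s x
    simp
  · intro j x
    have := (IsLocalRing.residue_eq_zero_iff _).mpr (hmin i x (Fin.castLE hn j))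
    simpa using this
  · intro j k
    by_cases h : j = k
    · subst h
      simp
    · have h2 : Fin.castLE hn j ≠ Fin.castLE hn k := by
        intro h3
        exact h (Fin.castLE_injective hn h3)
      simp [h, Pi.single_apply, h2]

theorem main : MINRES → RK1 → RK2 → RK3 → INDEP → LOC := by
  intro hMR hR1 hR2 hR3 hInd
  intro B _ _ _ N _ _ _ _ c hc hht
  obtain ⟨r, dX, εX, hres, hmin⟩ := hMR B N
  intro P _ _ _ d ε hP i
  refine hInd B (IsLocalRing.ResidueField B) (IsLocalRing.residue B) N
    (fun i => Fin (r i) → B) P dX εX d ε hres hP i (c.choose i) ?_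
  refine lemA r dX hmin i (c.choose i) ?_
  obtain ⟨hsurj, hex0, hex⟩ := hres
  have hr0 : 1 ≤ r 0 := by
    by_contra h
    have h0 : r 0 = 0 := by omega
    haveI : IsEmpty (Fin (r 0)) := by rw [h0]; infer_instance
    haveI : Subsingleton N := hsurj.subsingleton
    exact not_subsingleton N this
  have hr1 : (∀ q : Ideal B, q.IsPrime → Module.annihilator B N ≤ q → (1 : ℕ∞) ≤ q.height) →
      1 ≤ r 1 := by
    intro hh
    by_contra h
    have h0 : r (0 + 1) = 0 := by
      rw [Nat.zero_add]
      omega
    haveI : IsEmpty (Fin (r (0 + 1))) := by rw [h0]; infer_instance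
    have hk : LinearMap.ker εX = ⊥ := by
      rw [← hex0]
      refine (LinearMap.range_eq_bot).mpr ?_
      ext x
      exact isEmptyElim x
    exact hR1 B N hh (r 0) (LinearEquiv.ofBijective εX ⟨LinearMap.ker_eq_bot.mp hk, hsurj⟩)
  have hc3 : c = 0 ∨ c = 1 ∨ c = 2 := by omega
  rcases hc3 with rfl | rfl | rfl
  · rcases i with _ | i
    · simpa using hr0
    · simp
  · have h1 := hr1 (by simpa using hht)
    rcases i with _ | _ | i
    · simpa using hr0
    · simpa using h1
    · rw [Nat.choose_eq_zero_of_lt (by omega)]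
      exact Nat.zero_le _
  · have hht2 : ∀ q : Ideal B, q.IsPrime → Module.annihilator B N ≤ q → (2 : ℕ∞) ≤ q.height := by
      simpa using hht
    have h1 := hr1 (fun q hq hq' => le_trans (by norm_num) (hht2 q hq hq'))
    have h2 : 2 ≤ r 1 := by
      by_contra h
      have h11 : r (0 + 1) = 1 := by
        rw [Nat.zero_add]
        omega
      haveI : Unique (Fin (r (0 + 1))) := by rw [h11]; infer_instance
      refine hR2 B N hht2 (r 0) εX (dX 0 (fun _ => 1)) (fun j => hmin 0 _ j) hsurj ?_
      rw [← hex0]
      apply le_antisymm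
      · rintro _ ⟨x, rfl⟩
        have hx : x = x default • (fun _ => (1 : B)) := by
          funext t
          rw [Unique.eq_default t]
          simp
        rw [hx, map_smul]
        exact Submodule.smul_mem _ _ (Submodule.mem_span_singleton_self _)
      · rw [Submodule.span_singleton_le_iff_mem]
        exact ⟨_, rfl⟩
    have h3 : 1 ≤ r 2 := by
      by_contra h
      have h22 : r (0 + 1 + 1) = 0 := by
        have : (0 : ℕ) + 1 + 1 = 2 := rfl
        rw [this]
        omega
      haveI : IsEmpty (Fin (r (0 + 1 + 1))) := by rw [h22]; infer_instance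
      have hk : LinearMap.ker (dX 0) = ⊥ := by
        rw [← hex 0]
        refine (LinearMap.range_eq_bot).mpr ?_
        ext x
        exact isEmptyElim x
      exact hR3 B N hht2 (r (0 + 1)) (r 0) (dX 0) εX (LinearMap.ker_eq_bot.mp hk)
        (fun x j => hmin 0 x j) hsurj hex0
    rcases i with _ | _ | _ | i
    · simpa using hr0
    · simpa using h2
    · simpa using h3
    · rw [Nat.choose_eq_zero_of_lt (by omega)]
      exact Nat.zero_le _

end Pool.Agent.W696.BELOC
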